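import Pool.Agent.PXE.Stmts

/-!
# Row pxe:IRF, `u(X) + v(Y) + w(Z)` is irreducible
-/

set_option autoImplicit false

namespace Pool.Agent.PXE.H21

open Polynomial

section

variable {K : Type} [Field K]

noncomputable local instance i4 : CommSemiring K[X][X][X][X] :=
  Polynomial.commSemiring (R := K[X][X][X])

/-- the constants -/
noncomputable def io : K →+* K[X][X][X] := (C : K[X][X] →+* K[X][X][X]).comp
  ((C : K[X] →+* K[X][X]).comp (C : K →+* K[X]))

theorem io_inj : Function.Injective (io : K →+* K[X][X][X]) :=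
  RingHom.injective (io : K →+* K[X][X][X])

noncomputable def s1 (w3 : ℕ) : K[X] →+* K[X][X][X][X] :=
  eval₂RingHom (R := K) (S := K[X][X][X][X]) ((C : K[X][X][X] →+* K[X][X][X][X]).comp io)
    (C (C (C X)) * X ^ w3)

noncomputable def s2 (w2 w3 : ℕ) : K[X][X] →+* K[X][X][X][X] :=
  eval₂RingHom (R := K[X]) (S := K[X][X][X][X]) (s1 w3) (C (C X) * X ^ w2)

noncomputable def s3 (w1 w2 w3 : ℕ) : K[X][X][X] →+* K[X][X][X][X] :=
  eval₂RingHom (R := K[X][X]) (S := K[X][X][X][X]) (s2 w2 w3) (C X * X ^ w1)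

/-- one term -/
noncomputable def tm (p : K[X]) (r : K[X][X][X]) (m : ℕ) : K[X][X][X][X] :=
  (p.map io).comp (C r * X ^ m)

theorem tm_eval (p : K[X]) (r : K[X][X][X]) (m : ℕ) :
    tm p r m = p.eval₂ ((C : K[X][X][X] →+* K[X][X][X][X]).comp io) (C r * X ^ m) := by
  unfold tm
  rw [comp, eval₂_map]

theorem tm_deg (p : K[X]) (r : K[X][X][X]) (m : ℕ) : (tm p r m).natDegree ≤ p.natDegree * m := by
  unfold tm
  refine natDegree_comp_le.trans ?_
  rw [natDegree_map_eq_of_injective io_inj]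
  exact Nat.mul_le_mul_left _ (natDegree_C_mul_X_pow_le _ _)

theorem tm_coeff (p : K[X]) (r : K[X][X][X]) (hr : r ≠ 0) (m : ℕ) (hm : 0 < m) :
    (tm p r m).coeff (p.natDegree * m) = io p.leadingCoeff * r ^ p.natDegree := by
  have hd : (C r * X ^ m : K[X][X][X][X]).natDegree = m := natDegree_C_mul_X_pow m r hr
  have h1 : (tm p r m).natDegree = p.natDegree * m := by
    unfold tm
    rw [natDegree_comp, hd, natDegree_map_eq_of_injective io_inj]
  rw [← h1]
  show (tm p r m).leadingCoeff = _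
  unfold tm
  rw [leadingCoeff_comp (by rw [hd]; omega), leadingCoeff_map_of_injective io_inj,
    natDegree_map_eq_of_injective io_inj, leadingCoeff_C_mul_X_pow]

theorem s3_F (w1 w2 w3 : ℕ) (u v w : K[X]) :
    s3 w1 w2 w3 (u.map ((C : K[X] →+* K[X][X]).comp C) + C (v.map C + C w)) =
      tm u X w1 + (tm v (C X) w2 + tm w (C (C X)) w3) := by
  have e1 : (s2 w2 w3).comp ((C : K[X] →+* K[X][X]).comp C) =
      (C : K[X][X][X] →+* K[X][X][X][X]).comp io := by
    ext k : 1
    simp only [RingHom.comp_apply, s2, s1, coe_eval₂RingHom, eval₂_C]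
  have e2 : (s1 w3).comp (C : K →+* K[X]) = (C : K[X][X][X] →+* K[X][X][X][X]).comp io := by
    ext k : 1
    simp only [RingHom.comp_apply, s1, coe_eval₂RingHom, eval₂_C]
  rw [map_add, tm_eval, tm_eval, tm_eval]
  congr 1
  · rw [s3, coe_eval₂RingHom, eval₂_map, e1]
  · rw [s3, coe_eval₂RingHom, eval₂_C, map_add]
    congr 1
    · rw [s2, coe_eval₂RingHom, eval₂_map, e2]
    · rw [s2, coe_eval₂RingHom, eval₂_C]
      rfl

/-- the constant coefficient -/
noncomputable def ep : K[X][X][X] →+* K :=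
  (constantCoeff : K[X] →+* K).comp
    ((constantCoeff : K[X][X] →+* K[X]).comp (constantCoeff : K[X][X][X] →+* K[X][X]))

theorem ep_s3 (w1 w2 w3 : ℕ) : (mapRingHom (ep : K[X][X][X] →+* K)).comp (s3 w1 w2 w3) =
    (C : K →+* K[X]).comp ep := by
  refine ringHom_ext' (ringHom_ext' (ringHom_ext' ?_ ?_) ?_) ?_
  · ext k : 1
    simp [s3, s2, s1, ep, io]
  · simp [s3, s2, s1, ep]
  · simp [s3, s2, ep]
  · simp [s3, ep]

theorem ev_s3 (w1 w2 w3 : ℕ) : (evalRingHom (1 : K[X][X][X])).comp (s3 w1 w2 w3) =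
    RingHom.id _ := by
  refine ringHom_ext' (ringHom_ext' (ringHom_ext' ?_ ?_) ?_) ?_
  · ext k : 1
    simp [s3, s2, s1, io]
  · simp [s3, s2, s1]
  · simp [s3, s2]
  · simp [s3]

theorem unit_of (w1 w2 w3 : ℕ) (G : K[X][X][X]) (h : IsUnit (s3 w1 w2 w3 G).leadingCoeff) :
    IsUnit G := by
  have h1 := congrArg (fun f => f G) (ep_s3 (K := K) w1 w2 w3)
  simp only [RingHom.comp_apply, coe_mapRingHom] at h1
  have h2 := congrArg (fun f => f G) (ev_s3 (K := K) w1 w2 w3)
  simp only [RingHom.comp_apply, coe_evalRingHom, RingHom.id_apply] at h2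
  have h0 : (s3 w1 w2 w3 G).natDegree = 0 := by
    by_contra hne
    have h3 := congrArg (fun p => p.coeff (s3 w1 w2 w3 G).natDegree) h1
    simp only [coeff_map, coeff_C, if_neg hne] at h3
    exact (h.map (ep : K[X][X][X] →+* K)).ne_zero h3
  obtain ⟨r, hr⟩ := natDegree_eq_zero.1 h0
  rw [← hr, leadingCoeff_C] at h
  rw [← hr, eval_C] at h2
  rw [← h2]
  exact h

end

theorem irf (hE : EisStmt) : IrfStmt := by
  intro K _ _ u v w hu hv hw
  obtain ⟨a, ha⟩ : ∃ a, a = u.natDegree := ⟨_, rfl⟩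
  obtain ⟨b, hb⟩ : ∃ b, b = v.natDegree := ⟨_, rfl⟩
  obtain ⟨c, hc⟩ : ∃ c, c = w.natDegree := ⟨_, rfl⟩
  rw [← ha] at hu
  rw [← hb] at hv
  rw [← hc] at hw
  have hu0 : u.leadingCoeff ≠ 0 := leadingCoeff_ne_zero.2 (by rintro rfl; simp at ha; omega)
  have hv0 : v.leadingCoeff ≠ 0 := leadingCoeff_ne_zero.2 (by rintro rfl; simp at hb; omega)
  have hw0 : w.leadingCoeff ≠ 0 := leadingCoeff_ne_zero.2 (by rintro rfl; simp at hc; omega)
  have hirr := hE K u.leadingCoeff v.leadingCoeff w.leadingCoeff a b c hu0 hv0 hw0 hu hv hw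
  obtain ⟨F, hF⟩ : ∃ F : K[X][X][X],
    F = u.map ((C : K[X] →+* K[X][X]).comp C) + C (v.map C + C w) := ⟨_, rfl⟩
  rw [← hF]
  have hs := s3_F (b * c) (a * c) (a * b) u v w
  rw [← hF] at hs
  have hX : (X : K[X][X][X]) ≠ 0 := X_ne_zero
  have hCX : (C X : K[X][X][X]) ≠ 0 := C_ne_zero.2 X_ne_zero
  have hCCX : (C (C X) : K[X][X][X]) ≠ 0 := C_ne_zero.2 (C_ne_zero.2 X_ne_zero)
  have d1 : (tm u X (b * c)).natDegree ≤ a * b * c := by
    refine (tm_deg _ _ _).trans (le_of_eq ?_)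
    rw [← ha]
    ring
  have d2 : (tm v (C X) (a * c)).natDegree ≤ a * b * c := by
    refine (tm_deg _ _ _).trans (le_of_eq ?_)
    rw [← hb]
    ring
  have d3 : (tm w (C (C X)) (a * b)).natDegree ≤ a * b * c := by
    refine (tm_deg _ _ _).trans (le_of_eq ?_)
    rw [← hc]
    ring
  have hco : (s3 (b * c) (a * c) (a * b) F).coeff (a * b * c) =
      C (C (C u.leadingCoeff)) * X ^ a + C (C (C v.leadingCoeff) * X ^ b +
        C (C w.leadingCoeff * X ^ c)) := by
    have e1 := tm_coeff u X hX (b * c) (Nat.mul_pos hv hw)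
    have e2 := tm_coeff v (C X) hCX (a * c) (Nat.mul_pos hu hw)
    have e3 := tm_coeff w (C (C X)) hCCX (a * b) (Nat.mul_pos hu hv)
    rw [← ha, ← mul_assoc] at e1
    rw [← hb, show b * (a * c) = a * b * c by ring] at e2
    rw [← hc, show c * (a * b) = a * b * c by ring] at e3
    rw [hs, coeff_add, coeff_add, e1, e2, e3]
    simp only [io, RingHom.comp_apply, map_add, map_mul, map_pow]
  have hdeg : (s3 (b * c) (a * c) (a * b) F).natDegree ≤ a * b * c := by
    rw [hs]
    exact (natDegree_add_le _ _).trans (max_le d1 ((natDegree_add_le _ _).trans (max_le d2 d3)))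
  have hD : (s3 (b * c) (a * c) (a * b) F).natDegree = a * b * c := by
    refine le_antisymm hdeg (le_natDegree_of_ne_zero ?_)
    rw [hco]
    exact hirr.ne_zero
  have hlc : (s3 (b * c) (a * c) (a * b) F).leadingCoeff =
      C (C (C u.leadingCoeff)) * X ^ a + C (C (C v.leadingCoeff) * X ^ b +
        C (C w.leadingCoeff * X ^ c)) := by
    rw [← hco, ← hD]
    rfl
  refine ⟨fun hun => ?_, fun G H hGH => ?_⟩
  · obtain ⟨F', hF'⟩ := hun.exists_right_inv
    have h1 := congrArg (fun p => (s3 (b * c) (a * c) (a * b) p).leadingCoeff) hF'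
    simp only [map_mul, leadingCoeff_mul, map_one, leadingCoeff_one] at h1
    rw [hlc] at h1
    exact hirr.not_isUnit (IsUnit.of_mul_eq_one _ h1)
  · have h1 := congrArg (fun p => (s3 (b * c) (a * c) (a * b) p).leadingCoeff) hGH
    simp only [map_mul, leadingCoeff_mul] at h1
    rw [hlc] at h1
    rcases hirr.isUnit_or_isUnit h1 with h | h
    · exact Or.inl (unit_of _ _ _ _ h)
    · exact Or.inr (unit_of _ _ _ _ h)

end Pool.Agent.PXE.H21
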